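import Pool.Agent.TH109.CG5.Stmt
import Pool.Agent.TH109.CG4.Sharp

/-!
Second order rigidity of the bi-invariant metrics, compact form of the definitions.
-/

open scoped ContDiff Matrix.Norms.Frobenius
open Matrix

noncomputable section

namespace Pool.Agent.TH109.CG5

open Pool.Agent.TH109.CG (Mat)

variable {N : ℕ} {G : CompactGroup N}

/-- translation of a metric -/
def toOld (g : Metric G) : CG.Metric (toC G) where
  val p := LinearMap.mk₂ ℝ (fun A B : CG.lieAlg (toC G) => g.val p A B)
    (fun A B C => g.add p A B C)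
    (fun c A B => g.smul p c A B)
    (fun A B C => by
      rw [g.symm p A, g.symm p A B, g.symm p A C]
      exact g.add p B C A)
    (fun c A B => by
      rw [g.symm p A, g.symm p A B]
      exact g.smul p c B A)
  symm := g.symm
  pos := g.pos
  smooth := g.smooth

/-- translation of a metric, backwards -/
def toNew (g : CG.Metric (toC G)) : Metric G where
  val p A B := g.val p A B
  add p A B C := LinearMap.map_add₂ (g.val p) A B C
  smul p c A B := LinearMap.map_smul₂ (g.val p) c A B
  symm := g.symm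
  pos := g.pos
  smooth := g.smooth

/-- translation of an inner product -/
def toQ (Q : InvProduct G) : CG4.InvProduct (toC G) where
  val := LinearMap.mk₂ ℝ (fun A B : CG.lieAlg (toC G) => Q.val A B)
    (fun A B C => Q.add A B C)
    (fun c A B => Q.smul c A B)
    (fun A B C => by
      rw [Q.symm A, Q.symm A B, Q.symm A C]
      exact Q.add B C A)
    (fun c A B => by
      rw [Q.symm A, Q.symm A B]
      exact Q.smul c B A)
  symm := Q.symm
  pos := Q.pos
  inv := Q.inv

theorem toOld_sec (g : Metric G) (A B : Alg G) (p : Pt G) :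
    (toOld g).sec A B p = g.sec A B p := rfl

theorem toNew_sec (g : CG.Metric (toC G)) (A B : Alg G) (p : Pt G) :
    (toNew g).sec A B p = g.sec A B p := rfl

theorem main (Q : InvProduct G) :
    (∀ ε : ℝ, 0 < ε → ∃ t₀ : ℝ, 0 < t₀ ∧ ∀ (g : Metric G) (t : ℝ), 0 < t → t ≤ t₀ →
      g.CloseTo Q t → ∃ (p : Pt G) (A B : Alg G), LinearIndependent ℝ ![A, B] ∧
        g.sec A B p ≤ ε * t ^ 2) ↔
      ∃ A B : Alg G, LinearIndependent ℝ ![A, B] ∧ brk A B = 0 := by
  have h := CG4.rigid_iff (toQ Q)
  constructor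
  · intro h1
    refine h.1 fun ε hε => ?_
    obtain ⟨t₀, h0, h2⟩ := h1 ε hε
    refine ⟨t₀, h0, fun g t a b c => ?_⟩
    obtain ⟨p, A, B, h4, h5⟩ := h2 (toNew g) t a b c
    exact ⟨p, A, B, h4, h5⟩
  · intro h1 ε hε
    obtain ⟨t₀, h0, h2⟩ := h.2 h1 ε hε
    refine ⟨t₀, h0, fun g t a b c => ?_⟩
    obtain ⟨p, A, B, h4, h5⟩ := h2 (toOld g) t a b c
    exact ⟨p, A, B, h4, h5⟩

end Pool.Agent.TH109.CG5
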