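import Pool.Agent.TH109.CG.Grp

/-!
Riemannian metrics on a compact matrix group, in the left-invariant frame.
-/

open scoped ContDiff Matrix.Norms.Frobenius
open Matrix

noncomputable section

namespace Pool.Agent.TH109.CG5

open Pool.Agent.TH109.CG (Mat)

/-- A compact matrix group: a closed subgroup of the unitary group `U(N)`. -/
structure CompactGroup (N : ℕ) where
  S : Set (Mat N)
  one_mem : 1 ∈ S
  mul_mem : ∀ p q, p ∈ S → q ∈ S → p * q ∈ S
  inv_mem : ∀ p, p ∈ S → pᴴ ∈ S
  unitary : ∀ p, p ∈ S → pᴴ * p = 1
  isClosed : IsClosed S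

variable {N : ℕ}

/-- the group as a submonoid of the monoid of matrices -/
def toC (G : CompactGroup N) : CG.CGroup N where
  S :=
    { carrier := G.S
      mul_mem' := fun {p q} hp hq => G.mul_mem p q hp hq
      one_mem' := G.one_mem }
  unitary p hp := Matrix.mem_unitaryGroup_iff'.2 (G.unitary p hp)
  star_mem p hp := G.inv_mem p hp
  isClosed := G.isClosed

/-- the points of `G` -/
def Pt (G : CompactGroup N) : Type := {p : Mat N // p ∈ G.S}

/-- The Lie algebra of `G`: the matrices `A` with `exp (s A) ∈ G` for all real `s`. The tangent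
space of `G` at `p` consists of the matrices `p A`, `A` in the Lie algebra. -/
def Alg (G : CompactGroup N) : Type := {A : Mat N // ∀ s : ℝ, NormedSpace.exp (s • A) ∈ G.S}

instance (G : CompactGroup N) : AddCommGroup (Alg G) :=
  inferInstanceAs (AddCommGroup (CG.lieAlg (toC G)))

instance (G : CompactGroup N) : Module ℝ (Alg G) :=
  inferInstanceAs (Module ℝ (CG.lieAlg (toC G)))

theorem brk_mem {G : CompactGroup N} (A B : Alg G) (s : ℝ) :
    NormedSpace.exp (s • (A.1 * B.1 - B.1 * A.1)) ∈ G.S :=
  CG.brk_mem' (toC G) A.2 B.2 s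

theorem move_mem {G : CompactGroup N} (p : Pt G) (A : Alg G) (s : ℝ) :
    p.1 * NormedSpace.exp (s • A.1) ∈ G.S := G.mul_mem _ _ p.2 (A.2 s)

/-- the commutator on the Lie algebra -/
def brk {G : CompactGroup N} (A B : Alg G) : Alg G := ⟨A.1 * B.1 - B.1 * A.1, brk_mem A B⟩

/-- the point `p exp(s A)` of `G` -/
def move {G : CompactGroup N} (p : Pt G) (A : Alg G) (s : ℝ) : Pt G :=
  ⟨p.1 * NormedSpace.exp (s • A.1), move_mem p A s⟩

/-- Smooth functions on the submanifold `G` of the space of matrices: restrictions of smooth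
functions. -/
def Smooth {G : CompactGroup N} (f : Pt G → ℝ) : Prop :=
  ∃ F : Mat N → ℝ, ContDiff ℝ ∞ F ∧ ∀ p, f p = F p.1

/-- derivative of a function on `G` along the left-invariant field `p ↦ p A` -/
def lie {G : CompactGroup N} (A : Alg G) (f : Pt G → ℝ) (p : Pt G) : ℝ :=
  deriv (fun s => f (move p A s)) 0

/-- An invariant inner product on the Lie algebra of `G`. The metric on `G` whose value on the
tangent vectors `p A`, `p B` at `p` is `val A B` is the corresponding bi-invariant metric. -/
structure InvProduct (G : CompactGroup N) where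
  val : Alg G → Alg G → ℝ
  add : ∀ A B C, val (A + B) C = val A C + val B C
  smul : ∀ (c : ℝ) A B, val (c • A) B = c * val A B
  symm : ∀ A B, val A B = val B A
  pos : ∀ A, A ≠ 0 → 0 < val A A
  inv : ∀ A B C, val (brk A B) C = val A (brk B C)

/-- A smooth Riemannian metric on `G`, given in the left-invariant frame: `g.val p A B` is the
inner product of the tangent vectors `p A` and `p B` at `p`. -/
structure Metric (G : CompactGroup N) where
  val : Pt G → Alg G → Alg G → ℝ
  add : ∀ p A B C, val p (A + B) C = val p A C + val p B C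
  smul : ∀ p (c : ℝ) A B, val p (c • A) B = c * val p A B
  symm : ∀ p A B, val p A B = val p B A
  pos : ∀ p A, A ≠ 0 → 0 < val p A A
  smooth : ∀ A B, Smooth (fun p => val p A B)

namespace Metric

variable {G : CompactGroup N} (g : Metric G)

/-- Koszul's formula for `g(∇_A B, C)`, for left-invariant fields `A`, `B`, `C` -/
def koszul (A B C : Alg G) (p : Pt G) : ℝ :=
  (lie A (fun q => g.val q B C) p + lie B (fun q => g.val q A C) p
    - lie C (fun q => g.val q A B) p + g.val p (brk A B) C - g.val p (brk A C) B
    - g.val p (brk B C) A) / 2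

/-- the covariant derivative `∇_A B` of left-invariant fields at `p`: the unique element `V` of
the Lie algebra with `g_p(V, C) = g_p(∇_A B, C)` (Koszul's formula) for all `C` -/
def nabla (A B : Alg G) (p : Pt G) : Alg G :=
  Classical.epsilon fun V => ∀ C, g.val p V C = g.koszul A B C p

/-- The curvature `g(R(A,B)B, A) = g(∇_A ∇_B B - ∇_B ∇_A B - ∇_[A,B] B, A)` at `p`, in the form
`A g(∇_B B, A) - g(∇_B B, ∇_A A) - B g(∇_A B, A) + g(∇_A B, ∇_B A) - g(∇_[A,B] B, A)`. -/
def curv (A B : Alg G) (p : Pt G) : ℝ :=
  lie A (g.koszul B B A) p - g.val p (g.nabla B B p) (g.nabla A A p)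
    - lie B (g.koszul A B A) p + g.val p (g.nabla A B p) (g.nabla B A p)
    - g.koszul (brk A B) B A p

/-- sectional curvature of the plane spanned by the tangent vectors `p A`, `p B` at `p` -/
def sec (A B : Alg G) (p : Pt G) : ℝ :=
  g.curv A B p / (g.val p A A * g.val p B B - g.val p A B ^ 2)

/-- `‖g - Q‖_{C⁴} ≤ t`, where `Q` is a bi-invariant metric: the components of `g - Q` in the
left-invariant frame, on vectors of `Q`-length at most one, and all their derivatives of order at
most four along left-invariant fields of `Q`-length at most one are bounded by `t`. -/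
def CloseTo (Q : InvProduct G) (t : ℝ) : Prop :=
  ∀ L : List (Alg G), L.length ≤ 4 → (∀ Z ∈ L, Q.val Z Z ≤ 1) →
    ∀ A B : Alg G, Q.val A A ≤ 1 → Q.val B B ≤ 1 →
      ∀ p, |(L.foldr lie (fun q => g.val q A B - Q.val A B)) p| ≤ t

end Metric

end Pool.Agent.TH109.CG5
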